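import Pool.Agent.Run7.h844.RP.VecP
import Pool.Agent.Run7.h794.WN.Flat

set_option autoImplicit false

/-! Primes in short intervals near the translates of arbitrary sets by values at primes. -/

namespace Pool.Agent.Run7.h844.RP.K711652

open Finset Filter
open Pool.Agent.N625.DY (Cls ClsV Kc cls_one)
open Pool.Agent.N384.MQ (ev_log_ge)

/-- The number of the primes in `(n, n + y]`. -/
def primesIn (n y : ℕ) : ℕ := ((Ioc n (n + y)).filter Nat.Prime).card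

open Classical in
/-- For all integers `y` with `log ^ K N ≤ y ≤ N` the average of `primesIn (a + b) y` over the `a ∈ A` differs from `y / log N` by
at most `ε y / log N`, and at least `(1 / 4 - ε) |A|` elements `a` of `A` have at least `ε y / log N` primes in
`(a + b, a + b + y]`. -/
def Good (ε : ℝ) (K N : ℕ) (A : Finset ℕ) (b : ℕ) : Prop :=
  ∀ y : ℕ, Real.log N ^ K ≤ y → y ≤ N →
    |(∑ a ∈ A, (primesIn (a + b) y : ℝ)) * Real.log N - A.card * y| ≤ ε * (A.card * y) ∧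
    (1 / 4 - ε) * A.card ≤ ((A.filter fun a => ε * y ≤ (primesIn (a + b) y : ℝ) * Real.log N).card : ℝ)

/-- `Good` for all the sets `A 1, ..., A J` and for all the integers `1 ≤ b ≤ N` at a distance of at most `R` from `x`. -/
def AllGood (ε : ℝ) (K N J : ℕ) (A : Fin J → Finset ℕ) (R x : ℝ) : Prop :=
  ∀ b : ℕ, 1 ≤ b → b ≤ N → |(b : ℝ) - x| ≤ R → ∀ l, Good ε K N (A l) b

def Right (ε : ℝ) (K N J : ℕ) (A : Fin J → Finset ℕ) (R x : ℝ) : Prop :=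
  ∀ b : ℕ, 1 ≤ b → b ≤ N → x ≤ b → (b : ℝ) ≤ x + R → ∀ l, Good ε K N (A l) b

open Classical in
theorem key (B : ℕ) (δ : ℝ) (hδ : 0 < δ) (hδ1 : δ ≤ 1) (C T W U a : ℕ) (ε : ℝ) (hε : 0 < ε) (hε1 : ε ≤ 1 / 4) :
    ∃ V K M₀ : ℕ, ∀ M : ℕ, M₀ ≤ M → ∀ (J : ℕ) (A : Fin J → Finset ℕ), (J : ℝ) ≤ Real.log M ^ T →
      (∀ l, A l ⊆ Icc 1 M) → (∀ l, M / Real.log M ^ C ≤ ((A l).card : ℝ)) →
      ∀ N : ℕ, 3 ≤ N → N ≤ M → (M : ℝ) ≤ N * Real.log M ^ a →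
      ∀ (ι : Type) (s : Finset ι) (y : ι → ℝ), (∀ i ∈ s, 0 ≤ y i ∧ y i ≤ N) → ES B δ V N s y →
      ((s.filter fun i => ¬ Right ε K M J A (Real.log M ^ W) (y i)).card : ℝ) ≤ s.card / Real.log M ^ U := by
  obtain ⟨V, K, M₀, h0⟩ := transferK (Θ := (J : ℕ) × (Fin J → Finset ℕ)) B δ hδ hδ1 a U
    (fun M θ => (θ.1 : ℝ) ≤ Real.log M ^ T ∧ (∀ l, θ.2 l ⊆ Icc 1 M) ∧
      (∀ l, (M : ℝ) ≤ ((θ.2 l).card : ℝ) * Real.log M ^ C))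
    (fun K M θ v => ∀ t : ℕ, (t : ℝ) ≤ Real.log M ^ (W + 1) → 1 ≤ 0 + 1 * v + t → 0 + 1 * v + t ≤ M →
      ∀ l, Pool.Agent.Run7.h794.WN.Good ε K M (θ.2 l) (0 + 1 * v + t))
    (fun K K' M θ m hM hK h t k1 k2 k3 l => Pool.Agent.Run7.h794.WN.Good_mono hM hK (h t k1 k2 k3 l))
    (fun D hD => by
      obtain ⟨K, hK⟩ := Pool.Agent.Run7.h794.WN.all_scales (L := Kc 2 16 D) 1 0 C T (W + 1) U ε hε hε1
        (fun V => cls_one 1 (hD ((1 : ℕ) : ℤ) (by norm_num)).toCls 16 1 V)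
      obtain ⟨M₁, h1⟩ := eventually_atTop.1 hK
      refine ⟨K, M₁, fun M hM θ hθ Ω p hp hp0 => ?_⟩
      obtain ⟨k, g1, g2, g3, g4⟩ := hp
      exact h1 M hM Ω p ⟨k, by omega, by omega, g3, g4⟩ (fun v _ => hp0 v) 0 (Nat.zero_le _) θ.1 θ.2 hθ.1 hθ.2.1
        hθ.2.2)
  obtain ⟨M₁, h1⟩ := eventually_atTop.mp (ev_log_ge 2)
  refine ⟨V, K, M₀ + M₁, fun M hM J A hJ hA1 hA2 N hN3 hN1 hN2 ι s y hy hes => ?_⟩
  have hlog := h1 M (by omega)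
  have h2 := h0 M (by omega) ⟨J, A⟩ ⟨hJ, hA1, fun l => by
    have h2 := hA2 l
    rwa [div_le_iff₀ (by positivity)] at h2⟩ N hN3 hN1 hN2 ι s y hy hes
  refine le_trans ?_ h2
  apply Nat.cast_le.2
  apply card_le_card
  intro i hi
  rw [mem_filter] at hi ⊢
  refine ⟨hi.1, fun h3 => hi.2 fun b hb1 hb2 hb3 hb4 l => ?_⟩
  have hy0 := (hy i hi.1).1
  have hfl : ⌊y i⌋₊ ≤ b := by
    have := (Nat.floor_le hy0).trans hb3
    exact_mod_cast this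
  obtain ⟨t, ht⟩ : ∃ t, b = 0 + 1 * ⌊y i⌋₊ + t := ⟨b - ⌊y i⌋₊, by omega⟩
  have h4 := h3 t (by
    have h5 := Nat.lt_floor_add_one (y i)
    have h6 : (b : ℝ) = ⌊y i⌋₊ + t := by
      rw [ht]
      push_cast
      ring
    have h7 : 1 ≤ Real.log M ^ W := one_le_pow₀ (by linarith)
    rw [pow_succ]
    nlinarith) (by omega) (by omega) l
  rw [← ht] at h4
  intro z hz1 hz2
  obtain ⟨h5, h6⟩ := h4 z hz1 hz2
  refine ⟨h5, le_trans h6 (le_of_eq ?_)⟩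
  unfold Pool.Agent.W301.SS.GG
  rfl

open Classical in
theorem keyP (F : Finset ℝ) (c : ℝ) (hcF : c ∈ F) (hn : ∀ m : ℕ, c ≠ m) (hc : 0 < c) (hmax : ∀ x ∈ F, x ≤ c)
    (a : ℝ → ℝ) (ha : 0 < a c) (C T W E U : ℕ) (ε : ℝ) (hε : 0 < ε) (hε1 : ε ≤ 1 / 4) :
    ∃ K N₀ : ℕ, ∀ N : ℕ, N₀ ≤ N → ∀ (J : ℕ) (A : Fin J → Finset ℕ), (J : ℝ) ≤ Real.log N ^ T →
      (∀ l, A l ⊆ Icc 1 N) → (∀ l, N / Real.log N ^ C ≤ ((A l).card : ℝ)) →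
      ∀ X : ℕ, (X : ℝ) ^ c * Real.log N ≤ N → (N : ℝ) ≤ (X : ℝ) ^ c * Real.log N ^ W →
      ∀ z : ℝ, 0 ≤ z → z ≤ (X : ℝ) ^ c →
      (((Ioc X (2 * X)).filter fun p : ℕ => p.Prime ∧ ¬ AllGood ε K N J A (Real.log N ^ E) (ph F a p + z)).card : ℝ) ≤
        X / Real.log N ^ U := by
  obtain ⟨V, K, M₀, h0⟩ := key 8 (1 / 2) (by norm_num) (by norm_num) C T (E + 1) U W ε hε hε1
  obtain ⟨M₁, h1⟩ := one_primes (Θ := (J : ℕ) × (Fin J → Finset ℕ)) F c hcF hn hc hmax a ha W E U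
    (fun M θ => (θ.1 : ℝ) ≤ Real.log M ^ T ∧ (∀ l, θ.2 l ⊆ Icc 1 M) ∧
      (∀ l, M / Real.log M ^ C ≤ ((θ.2 l).card : ℝ)))
    (fun M θ x => Right ε K M θ.1 θ.2 (Real.log M ^ (E + 1)) x)
    ⟨V, M₀, fun M hM θ hθ N hN3 hN1 hN2 s y hy hes => h0 M hM θ.1 θ.2 hθ.1 hθ.2.1 hθ.2.2 N hN3 hN1 hN2 ℕ s y hy hes⟩
  obtain ⟨M₂, h2⟩ := eventually_atTop.mp (ev_log_ge 2)
  refine ⟨K, M₁ + M₂, fun N hN J A hJ hA1 hA2 X hX1 hX2 z hz0 hz1 => ?_⟩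
  refine le_trans ?_ (h1 N (by omega) ⟨J, A⟩ ⟨hJ, hA1, hA2⟩ X hX1 hX2 z hz0 hz1)
  have hlog := h2 N (by omega)
  apply Nat.cast_le.2
  apply card_le_card
  intro p hp
  rw [mem_filter] at hp ⊢
  refine ⟨hp.1, hp.2.1, fun hcon => hp.2.2 fun b hb1 hb2 hb3 l => ?_⟩
  have h4 := abs_le.1 hb3
  refine hcon b hb1 hb2 (by linarith) ?_ l
  have h7 : 0 < Real.log N ^ E := by
    have : 0 < Real.log N := by linarith
    positivity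
  rw [pow_succ]
  nlinarith

end Pool.Agent.Run7.h844.RP.K711652
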