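import Pool.Agent.Run7.h844.RP.PairsP

set_option autoImplicit false

/-! Prime pairs in progressions whose difference is near a value at a prime. -/

namespace Pool.Agent.Run7.h844.RP.K92ef0c

open Finset Filter Pool.Agent.H560R3.GB

open Classical in
/-- `π_d(x; a, q)`: the number of primes `p ≤ x` with `p + d ≤ x` prime and `p ≡ a (mod q)`. (For even
`d > 0` such a prime `p` is automatically odd.) -/
noncomputable def pairs (d : ℕ) (x : ℝ) (a q : ℕ) : ℕ :=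
  ((range (⌊x⌋₊ + 1)).filter (fun p => p.Prime ∧ (p + d).Prime ∧ (p : ℝ) + d ≤ x ∧ p ≡ a [MOD q])).card

/-- The main term `M_d(x; q)` of the problem. -/
noncomputable def main (d : ℕ) (x : ℝ) (q : ℕ) : ℝ :=
  2 / (((range q).filter (fun α => Nat.Coprime α q ∧ Nat.Coprime (α + d) q)).card : ℝ) *
    (∏ p ∈ d.primeFactors.filter (fun p => 2 < p), ((p : ℝ) - 1) / ((p : ℝ) - 2)) * C₂ *
    ∫ t in (2 : ℝ)..x, 1 / Real.log t ^ 2

/-- The estimate of the problem for the difference `d` with the bound `X / (log X) ^ C`, for all `x ≤ X`, all moduli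
`q ≤ (log X) ^ A` and all admissible classes `a`. -/
def HoldsAt (A C X d : ℕ) : Prop :=
  ∀ q a : ℕ, 1 ≤ q → (q : ℝ) ≤ Real.log X ^ A → Nat.Coprime a q → Nat.Coprime (a + d) q → ∀ x : ℝ, 2 ≤ x → x ≤ X →
    |(pairs d x a q : ℝ) - main d x q| ≤ X / Real.log X ^ C

/-- `HoldsAt` for all the even integers `d > 0` at a distance of at most `R` from the real number `y`. -/
def Near (A C X : ℕ) (R y : ℝ) : Prop := ∀ d : ℕ, 0 < d → |(d : ℝ) - y| ≤ R → Even d → HoldsAt A C X d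

lemma of_good (A C X d : ℕ) (hd0 : 0 < d) (hde : Even d) (hgood : Pool.Agent.W93.PP.GoodD 0 A C X d) : HoldsAt A C X d := by
  intro q a hq1 hq2 ha had x hx2 hxX
  have h2 := hgood 0 q a (by simp) hq1 hq2 ha had hde.two_dvd (by omega) x hx2 hxX
  simp only [add_zero] at h2
  have e1 : main d x q = sing d / Pool.Agent.W93.PP.Cnt q d * Pool.Agent.W93.PP.Li2 x := by
    unfold main sing Pool.Agent.W93.PP.Cnt Pool.Agent.W93.PP.Li2
    ring
  rw [e1]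
  exact h2

open Classical in
theorem keyP (F : Finset ℝ) (c : ℝ) (hcF : c ∈ F) (hn : ∀ m : ℕ, c ≠ m) (hc : 0 < c) (hmax : ∀ x ∈ F, x ≤ c)
    (a : ℝ → ℝ) (ha : a c ≠ 0) (A C E W U : ℕ) :
    ∃ X₀ : ℕ, ∀ X : ℕ, X₀ ≤ X → ∀ Z : ℕ, (X : ℝ) ^ c ≤ Z → (X : ℝ) ^ c * Real.log Z ^ (C + 12) ≤ Z →
      (Z : ℝ) ≤ (X : ℝ) ^ c * Real.log Z ^ W → ∀ z : ℝ, |z| ≤ (X : ℝ) ^ c →
      (((Ioc X (2 * X)).filter fun p : ℕ => p.Prime ∧ ¬ Near A C Z (Real.log X ^ E) (ph F a p + z)).card : ℝ) ≤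
        X / Real.log X ^ U := by
  obtain ⟨X₁, h1⟩ := primes_pairs F c hcF hn hc hmax a ha 1 le_rfl 0 A C U W E
  refine ⟨X₁, fun X hX Z hZ0 hZ1 hZ2 z hz => ?_⟩
  refine le_trans ?_ (h1 X hX Z hZ0 hZ1 hZ2 z hz)
  apply card_filter_mono'
  intro p _ hp
  refine ⟨hp.1, fun hcon => hp.2 fun d hd0 hd hde => of_good A C Z d hd0 hde (hcon d hd0 ?_)⟩
  rw [Nat.cast_one, one_mul]
  exact hd

end Pool.Agent.Run7.h844.RP.K92ef0c
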