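import Pool.Agent.Run7.h844.RP.Near
import Pool.Agent.Run7.h844.RP.Gold
import Pool.Agent.Results.MP_bae66e_nt.ResidueFamilies

set_option autoImplicit false

/-! The least prime summand near real families. -/

namespace Pool.Agent.Run7.h844.RP.Kbae66e

open Finset Pool.Agent.H560R3.GB Pool.Agent.Results.MP_bae66e_nt.ResidueFamilies

/-- `Holds` for all the even integers `m > 0` at a distance of at most `R` from the real number `y`. -/
def Near (ε : ℝ) (A : ℕ) (R y : ℝ) : Prop := ∀ m : ℕ, 0 < m → Even m → |(m : ℝ) - y| ≤ R → Holds ε A m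

lemma near_of (ε : ℝ) (A : ℕ) (R y : ℝ) (h : ∀ m : ℤ, |(m : ℝ) - y| ≤ R → 0 < m → Even m → Holds ε A m.toNat) :
    Near ε A R y := by
  intro m hm0 hme hm
  have h1 := h (m : ℤ) (by rw [Int.cast_natCast]; exact hm) (by exact_mod_cast hm0) (by exact_mod_cast hme)
  rwa [Int.toNat_natCast] at h1

lemma of_near (ε : ℝ) (A : ℕ) (R y : ℝ) (h : Near ε A R y) (m : ℤ) (hm : |(m : ℝ) - y| ≤ R) (hm0 : 0 < m)
    (hme : Even m) : Holds ε A m.toNat := by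
  have h1 : ((m.toNat : ℕ) : ℤ) = m := Int.toNat_of_nonneg hm0.le
  apply h m.toNat (by omega)
  · have : Even ((m.toNat : ℕ) : ℤ) := by rw [h1]; exact hme
    exact_mod_cast this
  · have : ((m.toNat : ℕ) : ℝ) = m := by exact_mod_cast h1
    rw [this]
    exact hm

open Classical in
theorem key (B : ℕ) (δ : ℝ) (hδ : 0 < δ) (hδ1 : δ ≤ 1) (A W U : ℕ) (ε : ℝ) (hε : 0 < ε) : ∃ V N₀ : ℕ, ∀ N : ℕ, N₀ ≤ N →
    ∀ (ι : Type) (s : Finset ι) (y : ι → ℝ), (∀ i ∈ s, |y i| ≤ N) → ES B δ V N s y →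
    ((s.filter fun i => ¬ Near ε A (Real.log N ^ W) (y i)).card : ℝ) ≤ s.card / Real.log N ^ U := by
  obtain ⟨m₀, hm⟩ := holds_of A ε hε
  obtain ⟨V, N₀, h0⟩ := rp_gold B δ hδ hδ1 (A + 1) W U 0 m₀ (min ε (1 / 2)) (lt_min hε (by norm_num)) (Holds ε A) hm
  refine ⟨V, N₀ + 3, fun N hN ι s y hy hs => ?_⟩
  refine le_trans ?_ (h0 N (by omega) ι s y hy hs 0 (by
    rw [pow_zero, Int.cast_zero, abs_zero]
    positivity))
  apply Nat.cast_le.2
  apply card_le_card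
  intro i hi
  rw [mem_filter] at hi ⊢
  refine ⟨hi.1, fun hcon => hi.2 (near_of ε A _ _ fun m hm hm0 hme => hcon m ?_ hm0 hme)⟩
  rw [Int.cast_zero, zero_add]
  exact hm

open Classical in
theorem keyP (F : Finset ℝ) (c : ℝ) (hcF : c ∈ F) (hn : ∀ m : ℕ, c ≠ m) (hc : 0 < c) (hmax : ∀ x ∈ F, x ≤ c)
    (a : ℝ → ℝ) (ha : a c ≠ 0) (A W U : ℕ) (ε : ℝ) (hε : 0 < ε) :
    ∃ X₀ : ℕ, ∀ X : ℕ, X₀ ≤ X → ∀ z : ℝ, |z| ≤ (X : ℝ) ^ c →
      (((Ioc X (2 * X)).filter fun p : ℕ => p.Prime ∧ ¬ Near ε A (Real.log X ^ W) (ph F a p + z)).card : ℝ) ≤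
        X / Real.log X ^ U := by
  obtain ⟨X₀, h0⟩ := primes_near F c hcF hn hc hmax a ha U W (fun _ m => 0 < m → Even m → Holds ε A m.toNat)
    (fun _ m => 0 < m → Even m → Holds ε A m.toNat) ⟨0, fun _ _ _ h => h⟩ (by
      obtain ⟨V, N₀, h1⟩ := key 8 (1 / 2) (by norm_num) (by norm_num) A (W + 1) (U + 1) ε hε
      refine ⟨V, N₀, fun N hN s y hy hs => ?_⟩
      refine le_trans ?_ (h1 N hN ℕ s y hy hs)
      apply Nat.cast_le.2
      apply card_le_card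
      intro i hi
      rw [mem_filter] at hi ⊢
      exact ⟨hi.1, fun hcon => hi.2 fun m hm => of_near ε A _ _ hcon m hm⟩)
  refine ⟨X₀, fun X hX z hz => ?_⟩
  refine le_trans ?_ (h0 X hX z hz)
  apply Nat.cast_le.2
  apply card_le_card
  intro p hp
  rw [mem_filter] at hp ⊢
  exact ⟨hp.1, hp.2.1, fun hcon => hp.2.2 (near_of ε A _ _ hcon)⟩

end Pool.Agent.Run7.h844.RP.Kbae66e
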