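import Pool.Agent.Run7.h844.RP.K.K711652
import Pool.Agent.Run7.h844.RP.Pairs

set_option autoImplicit false

/-! Primes in short intervals near the translates of arbitrary sets by real families. -/

namespace Pool.Agent.Run7.h844.RP.Kc853c5

open Finset Filter
open Pool.Agent.N384.MQ (ev_log_ge)

/-- The number of the primes in `(n, n + y]`. -/
def primesIn (n y : ℕ) : ℕ := ((Ioc n (n + y)).filter Nat.Prime).card

/-- The quantity of the problem: the least prime greater than `n`, minus `n`. -/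
noncomputable def g (n : ℕ) : ℕ := sInf {h : ℕ | 0 < h ∧ (n + h).Prime}

open Classical in
/-- For all integers `y` with `log ^ K N ≤ y ≤ N` the average of `primesIn (a + b) y` over the `a ∈ A` differs from `y / log N` by
at most `ε y / log N`, and at least `(1 / 4 - ε) |A|` elements `a` of `A` have `g (a + b) ≤ y`, and even at least
`ε y / log N` primes in `(a + b, a + b + y]`. -/
def Good (ε : ℝ) (K N : ℕ) (A : Finset ℕ) (b : ℕ) : Prop :=
  ∀ y : ℕ, Real.log N ^ K ≤ y → y ≤ N →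
    |(∑ a ∈ A, (primesIn (a + b) y : ℝ)) * Real.log N - A.card * y| ≤ ε * (A.card * y) ∧
    (1 / 4 - ε) * A.card ≤
      ((A.filter fun a => g (a + b) ≤ y ∧ ε * y ≤ (primesIn (a + b) y : ℝ) * Real.log N).card : ℝ)

/-- `Good` for all the sets `A 1, ..., A J` and for all the integers `1 ≤ b ≤ N` with `x ≤ b ≤ x + R`. -/
def AllGood (ε : ℝ) (K N J : ℕ) (A : Fin J → Finset ℕ) (R x : ℝ) : Prop :=
  ∀ b : ℕ, 1 ≤ b → b ≤ N → x ≤ b → (b : ℝ) ≤ x + R → ∀ l, Good ε K N (A l) b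

lemma good_of (ε : ℝ) (hε : 0 < ε) (K N : ℕ) (A : Finset ℕ) (b : ℕ) (hL : 1 ≤ Real.log N)
    (h : K711652.Good ε K N A b) : Good ε K N A b := by
  classical
  intro y hy1 hy2
  obtain ⟨h1, h2⟩ := h y hy1 hy2
  refine ⟨h1, h2.trans ?_⟩
  apply card_filter_mono'
  intro a _ ha
  refine ⟨?_, ha⟩
  have hy0 : (0 : ℝ) < y := lt_of_lt_of_le (by positivity) hy1
  have h3 : (0 : ℝ) < (K711652.primesIn (a + b) y : ℝ) := by
    by_contra hcon
    have h4 : (K711652.primesIn (a + b) y : ℝ) = 0 := le_antisymm (not_lt.1 hcon) (Nat.cast_nonneg _)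
    rw [h4, zero_mul] at ha
    have : 0 < ε * y := by positivity
    linarith
  have h4 : 0 < K711652.primesIn (a + b) y := by exact_mod_cast h3
  unfold K711652.primesIn at h4
  obtain ⟨q, hq⟩ := card_pos.1 h4
  rw [mem_filter, mem_Ioc] at hq
  obtain ⟨d, rfl⟩ := Nat.exists_eq_add_of_lt hq.1.1
  refine le_trans (Nat.sInf_le (m := d + 1) ⟨by omega, ?_⟩) (by omega)
  have h5 : a + b + (d + 1) = a + b + d + 1 := by ring
  rw [h5]
  exact hq.2

open Classical in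
theorem key (B : ℕ) (δ : ℝ) (hδ : 0 < δ) (hδ1 : δ ≤ 1) (C T W U a : ℕ) (ε : ℝ) (hε : 0 < ε) (hε1 : ε ≤ 1 / 4) :
    ∃ V K N₀ : ℕ, ∀ N : ℕ, N₀ ≤ N → ∀ (J : ℕ) (A : Fin J → Finset ℕ), (J : ℝ) ≤ Real.log N ^ T →
      (∀ l, A l ⊆ Icc 1 N) → (∀ l, N / Real.log N ^ C ≤ ((A l).card : ℝ)) →
      ∀ M : ℕ, 3 ≤ M → M ≤ N → (N : ℝ) ≤ M * Real.log N ^ a →
      ∀ (ι : Type) (s : Finset ι) (y : ι → ℝ), (∀ i ∈ s, 0 ≤ y i ∧ y i ≤ M) → ES B δ V M s y →
      ((s.filter fun i => ¬ AllGood ε K N J A (Real.log N ^ W) (y i)).card : ℝ) ≤ s.card / Real.log N ^ U := by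
  obtain ⟨V, K, M₀, h0⟩ := K711652.key B δ hδ hδ1 C T W U a ε hε hε1
  obtain ⟨M₁, h1⟩ := eventually_atTop.mp (ev_log_ge 1)
  refine ⟨V, K, M₀ + M₁, fun N hN J A hJ hA1 hA2 M hM3 hM1 hM2 ι s y hy hes => ?_⟩
  refine le_trans ?_ (h0 N (by omega) J A hJ hA1 hA2 M hM3 hM1 hM2 ι s y hy hes)
  apply card_filter_mono'
  intro i _ hi hcon
  exact hi fun b hb1 hb2 hb3 hb4 l => good_of ε hε K N (A l) b (h1 N (by omega)) (hcon b hb1 hb2 hb3 hb4 l)

end Pool.Agent.Run7.h844.RP.Kc853c5
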